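import Pool.Agent.H801.Fvs.Main

/-!
# FAIR FEEDBACK VERTEX SET has no polynomial kernel, unless `coNP` is contained in `NP/poly`
-/

namespace Pool.Agent.Results.MP_a87d5d_lc.NoPolyKernel

open Pool.Agent.NPC Pool.Agent.H801.Fvs

/-- If FAIR FEEDBACK VERTEX SET, parameterized by the solution size `k`, has a polynomial kernel, or
only a polynomial compression into an arbitrary language, then `coNP` is contained in `NP/poly`. -/
theorem result : (PolyKernel → ∀ L : Set (List Bool), InCoNP L → InNPpoly L) ∧
    (PolyCompression → ∀ L : Set (List Bool), InCoNP L → InNPpoly L) :=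
  ⟨fun h => main h.compression, main⟩

end Pool.Agent.Results.MP_a87d5d_lc.NoPolyKernel
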